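import Pool.Agent.helper25.TW.Spec2

set_option autoImplicit false

namespace TP.TW

open DP MeasureTheory Finset

theorem SRB (lev : LEV_stmt) (tcp : TCP_stmt) (lcr : LCR_stmt) (lc2 : LC2_stmt) (ein : EIN_stmt) :
    SRB_stmt := by
  classical
  obtain ⟨R, hR, hT⟩ := tcp
  refine ⟨R, hR, ?_⟩
  intro S I h hV k x t ht
  obtain ⟨J, hJ⟩ : ∃ J : Finset V, J = I.filter fun i => sd x i ≤ 3 * t + 3 * 2 ^ h i := ⟨_, rfl⟩
  have key := ein ℕ (Σ _ : V, ℕ) (range t) (J.sigma fun i => range (7 * 2 ^ h i))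
    (fun _ => Ev fun c => SR c k S x t) (fun p => Ev fun c => TCH c k S p.1 (h p.1) t) (til S) 1
    (fun _ _ => lcr.2.2.1 k S x t) (fun p _ => lc2.2 k S p.1 (h p.1) t) (by
      intro β
      by_cases hb : β ∈ Ev fun c => SR c k S x t
      · have hSR : SR (col β) k S x t := hb
        obtain ⟨I', hI', hall, hsum⟩ := lev R S I h (col β) k x t ht hV hSR
        have h1 : (I'.sigma fun i => range (7 * 2 ^ h i)).card = 7 * ∑ i ∈ I', 2 ^ h i := by
          rw [card_sigma, mul_sum]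
          exact sum_congr rfl fun i _ => card_range _
        have h2 : (I'.sigma fun i => range (7 * 2 ^ h i)) ⊆
            (J.sigma fun i => range (7 * 2 ^ h i)).filter
              fun p => β ∈ Ev fun c => TCH c k S p.1 (h p.1) t := by
          intro p hp
          rw [mem_sigma] at hp
          rw [mem_filter, mem_sigma, hJ, mem_filter]
          exact ⟨⟨⟨hI' hp.1, (hall p.1 hp.1).1⟩, hp.2⟩, (hall p.1 hp.1).2⟩
        calc #{j ∈ range t | β ∈ Ev fun c => SR c k S x t} ≤ #(range t) := card_filter_le _ _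
          _ = t := card_range t
          _ ≤ 7 * ∑ i ∈ I', 2 ^ h i := hsum
          _ = (I'.sigma fun i => range (7 * 2 ^ h i)).card := h1.symm
          _ ≤ _ := card_le_card h2
          _ = _ := (one_mul _).symm
      · rw [filter_false_of_mem (fun _ _ => hb)]
        simp)
  rw [sum_const, card_range, nsmul_eq_mul, sum_sigma] at key
  have htR : (0 : ℝ) < (t : ℝ) := by exact_mod_cast ht
  have hb2 : ∀ i ∈ J, ∑ _l ∈ range (7 * 2 ^ h i), Pr (Ev fun c => TCH c k S i (h i) t) ≤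
      7 * (2 ^ h i * (16 * 2 ^ h i / (t : ℝ)) ^ 3) := by
    intro i hi
    rw [hJ, mem_filter] at hi
    have h3 := hT k S i (h i) (hV.2.2 i hi.1) t ht
    rw [sum_const, card_range, nsmul_eq_mul]
    push_cast
    have h4 : (0 : ℝ) ≤ 7 * 2 ^ h i := by positivity
    calc (7 * 2 ^ h i : ℝ) * Pr (Ev fun c => TCH c k S i (h i) t)
        ≤ (7 * 2 ^ h i : ℝ) * (16 * 2 ^ h i / (t : ℝ)) ^ 3 := mul_le_mul_of_nonneg_left h3 h4
      _ = 7 * (2 ^ h i * (16 * 2 ^ h i / (t : ℝ)) ^ 3) := by ring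
  have hfin : (t : ℝ) * Pr (Ev fun c => SR c k S x t) ≤
      7 * ∑ i ∈ J, 2 ^ h i * (16 * 2 ^ h i / (t : ℝ)) ^ 3 := by
    calc (t : ℝ) * Pr (Ev fun c => SR c k S x t) ≤ _ := key
      _ = ∑ i ∈ J, ∑ _l ∈ range (7 * 2 ^ h i), Pr (Ev fun c => TCH c k S i (h i) t) := by
        rw [Nat.cast_one, one_mul]
      _ ≤ ∑ i ∈ J, 7 * (2 ^ h i * (16 * 2 ^ h i / (t : ℝ)) ^ 3) := sum_le_sum hb2
      _ = 7 * ∑ i ∈ J, 2 ^ h i * (16 * 2 ^ h i / (t : ℝ)) ^ 3 := by rw [mul_sum]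
  rw [← hJ, div_mul_eq_mul_div, le_div_iff₀ htR, mul_comm]
  exact hfin

end TP.TW
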